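import Mathlib
import Pool.Agent.Run7.h460.JR.FinS
import Pool.Agent.R419.KL.Rank

/-!
# Selmer ranks of cubic twists in arbitrary dense sets

`K` is the field of third roots of unity, `E_D : y² + D y = x³`. `SelRoot D` is the Selmer group of the
endomorphism `√-3` of `E_D` over `K` (the Galois group acts trivially on its kernel) and `Sel3 D` is the
`3`-Selmer group. An element of `𝓞 K` is admissible if it is cube-free and a third root of unity modulo
`3`; it is good if it is `1` modulo `3` and its norm is not `1` modulo `9`. The class of an admissible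
`r` consists of the admissible `a` with `3 ∣ a - r` and `9 ∣ N a - N r`, ordered by the norm.

Let `A` be an arbitrary subset of the class of `r` of upper density at least `δ > 0`.

* If `x` is good and a product of admissible elements, then `SelRoot x` has order `3 ^ (k + 1)`, the
  order of `Sel3 x` is `3 ^ (l + 1)` with `k ≤ l ≤ 2 k`, and the rank of `E_x(K)` is at most `2 k`.
* **Mixing.** Let `T` be a finite set of admissible elements with prescribed ranks `s_t`, `t ∈ T`. For all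
  but finitely many admissible `m` for which all the `r m t` are good, the `a ∈ A` for which
  `SelRoot (a m t)` has order `3 ^ (s_t + 1)` for all `t ∈ T` have upper density at least
  `δ ∏ prob s_t - ε`: inside every dense set the twists by `m t`, `t ∈ T`, obey the law of random
  matrices, independently of each other.
* **Universality.** Let `r` be good and `f` a function from the finite sets of natural numbers to the
  natural numbers. The following are equivalent: (a) every set `A` of positive upper density contains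
  different `d_0, d_1, ... ∈ A` such that `SelRoot (∏_{i ∈ S} d_i)` has order `3 ^ (f S + 1)` (so that
  `f S + 1 ≤ dim Sel3 ≤ 2 f S + 1`) for all finite sets `S` with at least two elements and `|S|` prime to
  three; (b) for every nonempty `S` with `|S| + 1` prime to three the numbers `f (S ∪ {k})`,
  `k = 0, 1, ...`, are bounded.
* For every `η > 0` there is a set `A` of lower density at least `1 - η` such that for every admissible
  `m` with `r m` good the Selmer ranks of the twists by `a m`, `a ∈ A`, are bounded.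

The law for all the cube-free `D` is `MP_8cb858_nt/ThreeSelmerCubicTwists.lean` of the starting tree
(helper419, after helper703 and others), the joint law of several twists is
`MP_a3f657_nt/JointLawCubicTwists.lean` (with the count of helper707); the passage to dense sets follows
helper428 (`Run7/h428`).
-/

set_option autoImplicit false

namespace Pool.Agent.Results.MP_8cb858_nt.DenseSetsSelmerRanks

open NumberField WeierstrassCurve Filter
open Pool.Agent.TH841.SH.D (Pt act Gal Coch)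
open Pool.Agent.TH841.NF.D (IsShaCoc)
open scoped Classical

section curves
variable {K : Type} [Field K] [NumberField K]

/-- The curve `E_D : y² + D y = x³`. -/
def curve {K : Type} [Field K] (D : K) : WeierstrassCurve K := ⟨0, 0, D, 0, 0⟩

/-- The group of the continuous cocycles of the absolute Galois group of `K` with values in `E_D[3]`
that are coboundaries in `E_D` at all the places of `K`. -/
def Cocycles (D : K) : AddSubgroup (Coch (curve D)) where
  carrier := {f | IsShaCoc (curve D) f ∧ ∀ σ, 3 • f σ = 0}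
  zero_mem' := (Pool.Agent.R419.KL.coc3 D).zero_mem'
  add_mem' := (Pool.Agent.R419.KL.coc3 D).add_mem'
  neg_mem' := (Pool.Agent.R419.KL.coc3 D).neg_mem'

/-- The group of the coboundaries of the points of `E_D[3]`. -/
def Coboundaries (D : K) : AddSubgroup (Coch (curve D)) where
  carrier := {f | ∃ P : Pt (curve D) (AlgebraicClosure K), 3 • P = 0 ∧
    ∀ σ : Gal K, f σ = act (curve D) σ.toAlgHom P - P}
  zero_mem' := (Pool.Agent.R419.KL.cob3 D).zero_mem'
  add_mem' := (Pool.Agent.R419.KL.cob3 D).add_mem'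
  neg_mem' := (Pool.Agent.R419.KL.cob3 D).neg_mem'

/-- The `3`-Selmer group of `E_D` over `K`: the kernel of `H¹(K, E_D[3]) → ∏ H¹(K_v, E_D)`. -/
def Sel3 (D : K) : Type := Cocycles D ⧸ (Coboundaries D).addSubgroupOf (Cocycles D)

/-- The Selmer group of the endomorphism `√-3`: the continuous cocycles with values in its kernel
`{0, (0, 0), (0, -D)}` that are coboundaries in `E_D` at all the places of `K`. -/
def SelRoot (D : K) : Set (Coch (curve D)) :=
  {f | IsShaCoc (curve D) f ∧ ∀ σ, f σ = 0 ∨ ∃ y h, f σ = Affine.Point.some 0 y h}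

/-- The rank of `E_D(K)` over `ℤ`. -/
noncomputable def rank (D : K) : ℕ := Module.finrank ℤ (curve D).toAffine.Point

end curves

section classes
variable {K : Type} [Field K] [NumberField K]

/-- `a` is cube-free and a third root of unity modulo `3`. -/
def IsAdm (a : 𝓞 K) : Prop :=
  (∀ x : 𝓞 K, x ^ 3 ∣ a → IsUnit x) ∧ ∃ ω : 𝓞 K, ω ^ 3 = 1 ∧ (3 : 𝓞 K) ∣ a - ω

/-- `x` is `1` modulo `3` and its norm is not `1` modulo `9`. -/
def IsGood (x : 𝓞 K) : Prop := (3 : 𝓞 K) ∣ x - 1 ∧ ¬ (9 : ℤ) ∣ Algebra.norm ℤ x - 1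

/-- `a` is an admissible element in the class of `r`. -/
def InClass (r a : 𝓞 K) : Prop :=
  IsAdm a ∧ (3 : 𝓞 K) ∣ a - r ∧ (9 : ℤ) ∣ Algebra.norm ℤ a - Algebra.norm ℤ r

/-- The elements of the class of `r` of norm at most `X`. -/
def upTo (r : 𝓞 K) (X : ℕ) : Set (𝓞 K) := {a | Algebra.norm ℤ a ≤ X ∧ InClass r a}

/-- The upper density of `A` in the class of `r` is at least `δ`. -/
def UpperDensity (r : 𝓞 K) (A : Set (𝓞 K)) (δ : ℝ) : Prop :=
  ∀ ε : ℝ, 0 < ε → ∃ᶠ X : ℕ in atTop,
    (δ - ε) * ((upTo r X).ncard : ℝ) ≤ ((upTo r X ∩ A).ncard : ℝ)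

/-- The Selmer group of `√-3` has order `3 ^ (k + 1)`, the order of the `3`-Selmer group is
`3 ^ (l + 1)` with `k ≤ l ≤ 2 k`, and the rank is at most `2 k`. -/
def HasSelmerRank (x : 𝓞 K) (k : ℕ) : Prop :=
  (SelRoot (x : K)).ncard = 3 ^ (k + 1) ∧
    (∃ l : ℕ, Nat.card (Sel3 (x : K)) = 3 ^ (l + 1) ∧ k ≤ l ∧ l ≤ 2 * k) ∧ rank (x : K) ≤ 2 * k

end classes

/-- `∏_{i ≥ 0} (1 - 3^{-(2 i + 1)}) / ((3 - 1) (9 - 1) ⋯ (3 ^ r - 1))`. -/
noncomputable def prob (r : ℕ) : ℝ :=
  (∏' i : ℕ, (1 - (1 / 3 : ℝ) ^ (2 * i + 1))) / ∏ i ∈ Finset.range r, ((3 : ℝ) ^ (i + 1) - 1)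

theorem result (K : Type) [Field K] [NumberField K] [IsCyclotomicExtension {3} ℚ K]
    (r : 𝓞 K) (hr : IsAdm r) :
    -- the class
    (∃ (C : ℝ) (X₀ : ℕ), 0 < C ∧ ∀ X : ℕ, X₀ ≤ X → C * (X : ℝ) ≤ ((upTo r X).ncard : ℝ)) ∧
    -- the Selmer groups of the products
    (∀ (n : ℕ) (a : Fin n → 𝓞 K), (∀ i, IsAdm (a i)) → IsGood (∏ i, a i) →
      ∃ k : ℕ, HasSelmerRank (∏ i, a i) k) ∧
    -- mixing
    (∀ (T : Finset (𝓞 K)) (s : 𝓞 K → ℕ) (A : Set (𝓞 K)) (δ ε : ℝ), (∀ t ∈ T, IsAdm t) →
      UpperDensity r A δ → 0 < ε →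
      {m : 𝓞 K | IsAdm m ∧ (∀ t ∈ T, IsGood (r * m * t)) ∧
        ¬ UpperDensity r {a | a ∈ A ∧ ∀ t ∈ T, HasSelmerRank (a * m * t) (s t)}
          ((∏ t ∈ T, prob (s t)) * δ - ε)}.Finite) ∧
    -- universality
    (IsGood r → ∀ f : Finset ℕ → ℕ,
      ((∀ (A : Set (𝓞 K)) (δ : ℝ), 0 < δ → UpperDensity r A δ →
        ∃ d : ℕ → 𝓞 K, Function.Injective d ∧ (∀ i, d i ∈ A ∧ InClass r (d i)) ∧
          ∀ S : Finset ℕ, 2 ≤ S.card → ¬ 3 ∣ S.card → HasSelmerRank (∏ i ∈ S, d i) (f S)) ↔
      ∀ S : Finset ℕ, S.Nonempty → ¬ 3 ∣ S.card + 1 →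
        BddAbove (Set.range fun k : ℕ => f (insert k S)))) ∧
    -- large sets with bounded ranks
    (∀ η : ℝ, 0 < η → ∃ A : Set (𝓞 K),
      (∀ X : ℕ, (1 - η) * ((upTo r X).ncard : ℝ) ≤ ((upTo r X ∩ A).ncard : ℝ)) ∧
      ∀ m : 𝓞 K, IsAdm m → IsGood (r * m) → ∃ B : ℕ, ∀ a ∈ A, InClass r a →
        ∀ k : ℕ, HasSelmerRank (a * m) k → k ≤ B) ∧
    ((∀ k, 0 < prob k) ∧ 0.639 < prob 0 ∧ prob 0 < 0.6391 ∧ HasSum prob 1) := by
  obtain ⟨ω, hω⟩ := Pool.Agent.R419.KL.ex_root K
  have key : ∀ (x : 𝓞 K) (k : ℕ), Run7.h460.JR.Facts ω x →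
      ((Pool.Agent.Y703.XL.Inf.killed ω (x : K)).ncard = 3 ^ k ↔ HasSelmerRank x k) := by
    intro x k hF
    have hpow : ∀ m : ℕ, (Pool.Agent.Y703.XL.Inf.killed ω (x : K)).ncard = 3 ^ m →
        (SelRoot (x : K)).ncard = 3 ^ (m + 1) := by
      intro m hm
      have h1 : (SelRoot (x : K)).ncard =
          3 * (Pool.Agent.Y703.XL.Inf.killed ω (x : K)).ncard := hF.sel
      rw [h1, hm, pow_succ']
    constructor
    · intro h
      obtain ⟨l, hl⟩ := Pool.Agent.R419.KL.sel3_facts hF.ne hω hF.nc h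
      obtain ⟨k', hk', hrk⟩ := hF.rk
      have h2 : k' = k := by
        rw [h] at hk'
        exact (Nat.pow_right_injective (by norm_num) hk').symm
      exact ⟨hpow k h, ⟨l, hl⟩, by rw [← h2]; exact hrk⟩
    · rintro ⟨h, -⟩
      obtain ⟨k', hk', -⟩ := hF.rk
      rw [hpow k' hk'] at h
      have h2 : k' + 1 = k + 1 := Nat.pow_right_injective (by norm_num) h
      have h3 : k' = k := by omega
      rw [hk', h3]
  refine ⟨(Run7.h460.JL.finN K r hr).2, fun n a ha hg => ?_, fun T s A δ ε hT hA hε => ?_,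
    fun hg f => ?_, fun η hη => ?_, Pool.Agent.R419.KL.prob_facts⟩
  · have hF := Run7.h460.JR.facts_prod K hω Finset.univ a (fun i _ => ha i) hg
    obtain ⟨k, hk, -⟩ := hF.rk
    exact ⟨k, (key _ k hF).1 hk⟩
  · exact Run7.h460.JR.finMH K ω hω HasSelmerRank key r hr T hT s A δ ε hA hε
  · rw [← Run7.h460.JR.finIff K ω hω r hr hg f]
    refine forall_congr' fun A => forall_congr' fun δ => forall_congr' fun hδ =>
      forall_congr' fun hA => ?_
    constructor
    · rintro ⟨d, h1, h2, h3⟩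
      refine ⟨d, h1, h2, fun S hS hS3 => ?_⟩
      have hF := Run7.h460.JR.facts_prod K hω S d (fun i _ => (h2 i).2.1) (by
        obtain ⟨⟨j, hj⟩, -⟩ := Pool.Agent.Y455.CTK.jex K
        have h6 := Run7.h460.JL.SC_prod (r := r) j hj S d fun i _ => (h2 i).2.2
        have hone : ¬ Run7.h460.JL.IsOne r := fun h => hg.2 h.2
        exact Run7.h460.JR.Good.sc ⟨Run7.h460.JR.pow_one_dvd hg.1 _, fun h9 =>
          Run7.h460.JL.not_isOne_pow j hj hr hone hS3 ⟨Run7.h460.JR.pow_one_dvd hg.1 _, h9⟩⟩ h6)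
      exact ⟨hF, (key _ _ hF).2 (h3 S hS hS3)⟩
    · rintro ⟨d, h1, h2, h3⟩
      exact ⟨d, h1, h2, fun S hS hS3 => (key _ _ (h3 S hS hS3).1).1 (h3 S hS hS3).2⟩
  · obtain ⟨A, h1, h2⟩ := Run7.h460.JR.finB K ω hω r hr η hη
    refine ⟨A, h1, fun m hm hg => ?_⟩
    obtain ⟨B, hB⟩ := h2 m hm hg
    refine ⟨B, fun a ha hc k hk => ?_⟩
    have e : ∏ i ∈ (Finset.univ : Finset (Fin 2)), (![a, m] : Fin 2 → 𝓞 K) i = a * m := by
      rw [Fin.prod_univ_two]
      rfl
    have hF := Run7.h460.JR.facts_prod K hω (Finset.univ : Finset (Fin 2)) ![a, m] (by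
      intro i _
      fin_cases i
      · exact hc.1
      · exact hm) (by
      rw [e]
      exact Run7.h460.JR.Good.sc hg (Run7.h460.JL.SC.mul hc.2 (Run7.h460.JL.SC.refl m)))
    rw [e] at hF
    have h3 := hB a ha hc.1 hc.2
    rw [(key _ k hF).2 hk] at h3
    exact (Nat.pow_le_pow_iff_right (by norm_num)).1 h3

end Pool.Agent.Results.MP_8cb858_nt.DenseSetsSelmerRanks
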