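import Pool.Agent.Run7.h245.SR.Final

/-!
# Every 2-Selmer dimension has positive lower density, over every number field

Let `F` be ANY number field. All pairs `(a, b)` of integers of `F` with `4 a³ + 27 b² ≠ 0` are ordered by the height of the
problem, `H(a, b) = max_v max (|a|_v³, |b|_v²)` over the infinite places, with normalized absolute values.

Theorem. For every `d ≥ 0` the elliptic curves `E : y ^ 2 = x ^ 3 + a x + b` over `F` with `dim Sel_2(E / F) = d` have positive
lower density (in fact already those for which no nonzero prime ideal `𝔭` has `𝔭⁴ ∣ a` and `𝔭⁶ ∣ b`). More precisely, for all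
`d` and `N` there is a `D₀` such that a positive proportion of all `E` has `dim Sel_2(E / F) = d` and, for EVERY `d' ≤ N`, a
quadratic twist by a natural number `D ≤ D₀` with `dim Sel_2(E ^ D / F) = d'`.

Here `Sel_2(E / F)` is the kernel of `H ^ 1(F, E[2]) → ∏_v H ^ 1(F_v, E)`, in terms of continuous cocycles: `SelmerTwo` is the
set of continuous cocycles of `Gal(Sep F / F)` with values in the points of order two whose restriction to every completion is
a coboundary (with values in all points), modulo coboundaries of points of order two; the condition `dim = d` is that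
it has exactly `2 ^ d` elements.

For `d = 0` this is in the tree (`MP_7cad78_nt.RankZeroEveryNumberField`, project PF of helper783). For `d ≥ 1` nothing was
known over any number field, as far as we know: averages of `|Sel_2|` do not give single dimensions, and the results on
quadratic twists (Heath-Brown, Swinnerton-Dyer, Kane, Mazur-Rubin, Klagsbrun-Mazur-Rubin, Smith) concern the twists of one
curve, which have density zero in the family of all curves.

The proof. Project PF: for `f = x ^ 3 + a x + b` in a family prescribed at the small primes and at a finite set `S` of rational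
primes `q` (`f` is `x` times an irreducible polynomial modulo one prime `𝔮` over `q`, irreducible modulo the others), with
squarefree discriminant, the 2-Selmer group of the twist by the product of `J ⊆ S` is the set of all classes `α` of
`L = F(θ)` with square norm, even valuations outside the primes `𝔔 q`, `q ∈ J`, of degree two, and conditions at
`2`, `∞` and `𝔔 q`. By the reciprocity law the classes ramified only at the `𝔔 q` form an isotropic group in a quadratic space of
dimension `2 |S|` over the field with two elements. New: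
* by Dirichlet's theorem on `S`-units the index of this group in a maximal isotropic one is bounded independently of `S`
  (`UN1`, `CLF`, `NEV`, `M16`, `SQ2`, `UNI`), and all local conditions can be satisfied, not only be necessary (`LOCC`:
  Hensel's lemma and 2-descent over finite fields, multiplicative reduction, 2-adic and real places);
* the set `S` is a union of levels. Counting pairs of symmetric matrices which are distinguished only at a part of
  the primes, for lattices with a dual which is larger by a bounded index (`CQC`, `PBC`, `BADC`, `LBR`, `PRX`), and a moment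
  argument (`LEVB`), show that for most `f` every class ramified at the earlier levels is trivial at not more than
  `(1/2 + ε)` of the primes of each level;
* linear algebra over the field with two elements (`PAT`, `CAND`, `POOR`, `BIGJ`, `WALK`): a group of this kind
  contains large intersections with coordinate Lagrangian subspaces, and by changing one prime at a time one finds `J` with
  any given dimension.
The height of the problem is compared with the uniform height by Dirichlet's unit theorem (`HTU`).

The pieces are due to the authors of `Pool/Agent/Run7/h13`, `h67`, `h228`, `h277`, `h366`, `h382`, `h576`, `h697`, `h711`, `h713`,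
`h796`, `h824`, `h890`, `h68` (directory `SR` of each or of `h245`); interface, choice of the twists, levels and final
counting are in `Pool/Agent/Run7/h245/SR` (helper245). `Pt`, `Sep`, `act`, `rs`, `IsCoc`, `LocTriv`, `Comp` are the group of
points, separable closures, the action of the Galois group, continuous cocycles and their restriction to
completions of `Pool.Agent.TH115.GD`.
-/

set_option autoImplicit false
set_option linter.all false

namespace Pool.Agent.Results.MP_8cb858_nt.EveryTwoSelmerDimension

open Filter NumberField IsDedekindDomain Pool.Agent.TH115.GD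
open scoped Classical

section family

variable {F : Type} [Field F] [NumberField F]

/-- The height `H(a, b) = max_v max (|a|_v ^ 3, |b|_v ^ 2)` over the infinite places, with the normalized absolute values
`|x|_v = v x` at the real places and `|x|_v = (v x) ^ 2` at the complex ones. -/
noncomputable def height (p : 𝓞 F × 𝓞 F) : ℝ :=
  ⨆ v : InfinitePlace F, max ((v (p.1 : F) ^ v.mult) ^ 3) ((v (p.2 : F) ^ v.mult) ^ 2)

variable (F)

/-- All pairs `(a, b)` with `4 a ^ 3 + 27 b ^ 2 ≠ 0` of height at most `X`. -/
def UpTo (X : ℝ) : Set (𝓞 F × 𝓞 F) := {p | 4 * p.1 ^ 3 + 27 * p.2 ^ 2 ≠ 0 ∧ height p ≤ X}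

end family

section selmer

variable (K : Type) [Field K] [NumberField K] (W : WeierstrassCurve K)

/-- A continuous cocycle of `Gal(Sep K / K)` with values in the points of order two, which is a coboundary (with
values in all points) over all completions: at every maximal ideal of the ring of integers and over `ℝ` for
every real embedding (over `ℂ` there is no condition). -/
structure IsSelmer (f : (Sep K ≃ₐ[K] Sep K) → Pt W (Sep K)) : Prop where
  coc : IsCoc W f
  two : ∀ σ, (2 : ℕ) • f σ = 0
  finite : ∀ v : HeightOneSpectrum (𝓞 K), LocTriv W (Comp (𝓞 K) K v) (Sep (Comp (𝓞 K) K v)) f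
  real : ∀ ρ : K →+* ℝ, letI := ρ.toAlgebra; LocTriv W ℝ (Sep ℝ) f

/-- Cocycles are equivalent if they differ by the coboundary of a point of order two. -/
def selmerSetoid : Setoid {f : (Sep K ≃ₐ[K] Sep K) → Pt W (Sep K) // IsSelmer K W f} where
  r f f' := ∃ T : Pt W (Sep K), (2 : ℕ) • T = 0 ∧ ∀ σ, f.1 σ - f'.1 σ = act W (rs K σ) T - T
  iseqv := by
    refine ⟨fun f => ⟨0, smul_zero _, fun σ => by rw [map_zero]; abel⟩, ?_, ?_⟩
    · rintro f f' ⟨T, hT, h⟩
      refine ⟨-T, by rw [smul_neg, hT, neg_zero], fun σ => ?_⟩
      have e : f'.1 σ - f.1 σ = -(f.1 σ - f'.1 σ) := by abel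
      rw [map_neg, e, h σ]
      abel
    · rintro f f' f'' ⟨T, hT, h⟩ ⟨T', hT', h'⟩
      refine ⟨T + T', by rw [smul_add, hT, hT', add_zero], fun σ => ?_⟩
      have e : f.1 σ - f''.1 σ = (f.1 σ - f'.1 σ) + (f'.1 σ - f''.1 σ) := by abel
      rw [e, h, h', map_add]
      abel

/-- The 2-Selmer group of `W`, as a set. -/
def SelmerTwo : Type := Quotient (selmerSetoid K W)

end selmer

section good

variable {F : Type} [Field F] [NumberField F]

/-- The curve `y ^ 2 = x ^ 3 + a x + b`. -/
def curve (a b : F) : WeierstrassCurve F := ⟨0, 0, 0, a, b⟩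

/-- The 2-Selmer group has `2 ^ d` elements, and for every `d' ≤ N` there is a quadratic twist by a natural number
`D ≤ D₀` with a 2-Selmer group with `2 ^ d'` elements; the pair is minimal. -/
structure Good (d N D₀ : ℕ) (p : 𝓞 F × 𝓞 F) : Prop where
  minimal : ∀ 𝔭 : Ideal (𝓞 F), 𝔭.IsPrime → 𝔭 ≠ ⊥ → ¬ (p.1 ∈ 𝔭 ^ 4 ∧ p.2 ∈ 𝔭 ^ 6)
  dim : Nat.card (SelmerTwo F (curve (p.1 : F) (p.2 : F))) = 2 ^ d
  twists : ∀ d' ≤ N, ∃ D : ℕ, D ≠ 0 ∧ D ≤ D₀ ∧
    Nat.card (SelmerTwo F (curve ((p.1 : F) * (D : F) ^ 2) ((p.2 : F) * (D : F) ^ 3))) = 2 ^ d'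

end good

theorem card_eq (K : Type) [Field K] [NumberField K] (W : WeierstrassCurve K) :
    Nat.card (SelmerTwo K W) = Nat.card (Pool.Agent.Run7.h245.SR.Sel2 K W) := by
  have e : ∀ f : (Sep K ≃ₐ[K] Sep K) → Pt W (Sep K), IsSelmer K W f ↔
      Pool.Agent.Run7.h245.SR.SelCoc K W f := fun f =>
    ⟨fun h => ⟨h.coc, h.two, h.finite, h.real⟩, fun h => ⟨h.coc, h.two, h.finite, h.real⟩⟩
  refine Nat.card_congr (Quotient.congr (Equiv.subtypeEquivRight e) ?_)
  intro f f'
  exact Iff.rfl

theorem height_le {F : Type} [Field F] [NumberField F] (p : 𝓞 F × 𝓞 F) (X : ℝ) :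
    height p ≤ X ↔ Pool.Agent.Run7.h245.SR.HnX X p := by
  have hb : BddAbove (Set.range fun v : InfinitePlace F =>
      max ((v (p.1 : F) ^ v.mult) ^ 3) ((v (p.2 : F) ^ v.mult) ^ 2)) :=
    (Set.finite_range _).bddAbove
  constructor
  · intro h v
    exact max_le_iff.1 ((le_ciSup hb v).trans h)
  · intro h
    exact ciSup_le fun v => max_le_iff.2 (h v)

/-- For every number field `F` and all `d`, `N` there are `D₀` and `c > 0` such that, for all large `X`, at least
`c |UpTo X|` of the curves of height at most `X` have a 2-Selmer group over `F` with exactly `2 ^ d` elements and, for every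
`d' ≤ N`, a quadratic twist by a natural number `D ≤ D₀` with a 2-Selmer group with exactly `2 ^ d'` elements. -/
theorem result (F : Type) [Field F] [NumberField F] (d N : ℕ) :
    ∃ (D₀ : ℕ) (c : ℝ), 0 < c ∧ ∀ᶠ X : ℝ in atTop,
      (UpTo F X).Finite ∧ 0 < (UpTo F X).ncard ∧
      c * ((UpTo F X).ncard : ℝ) ≤ ({p ∈ UpTo F X | Good d N D₀ p}.ncard : ℝ) := by
  obtain ⟨D₀, c, hc, X₀, h⟩ := Pool.Agent.Run7.h245.SR.findF F d N
  refine ⟨D₀, c, hc, ?_⟩
  filter_upwards [eventually_ge_atTop X₀] with X hX
  have e1 : UpTo F X = {p : 𝓞 F × 𝓞 F | 4 * p.1 ^ 3 + 27 * p.2 ^ 2 ≠ 0 ∧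
      Pool.Agent.Run7.h245.SR.HnX X p} := by
    ext p
    exact and_congr_right fun _ => height_le p X
  have e2 : ∀ p : 𝓞 F × 𝓞 F, Good d N D₀ p ↔ Pool.Agent.Run7.h245.SR.QE d N D₀ p := by
    intro p
    constructor
    · rintro ⟨h1, h2, h3⟩
      refine ⟨h1, ?_, fun d' hd' => ?_⟩
      · rw [card_eq] at h2
        exact h2
      · obtain ⟨D, g1, g2, g3⟩ := h3 d' hd'
        rw [card_eq] at g3
        exact ⟨D, g1, g2, g3⟩
    · rintro ⟨h1, h2, h3⟩
      refine ⟨h1, ?_, fun d' hd' => ?_⟩
      · rw [card_eq]
        exact h2
      · obtain ⟨D, g1, g2, g3⟩ := h3 d' hd'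
        refine ⟨D, g1, g2, ?_⟩
        rw [card_eq]
        exact g3
  obtain ⟨h1, h2⟩ := h X
  obtain ⟨h3, h4⟩ := h2 hX
  have e3 : {p ∈ UpTo F X | Good d N D₀ p} = {p : 𝓞 F × 𝓞 F | (4 * p.1 ^ 3 + 27 * p.2 ^ 2 ≠ 0 ∧
      Pool.Agent.Run7.h245.SR.HnX X p) ∧ Pool.Agent.Run7.h245.SR.QE d N D₀ p} := by
    rw [e1]
    ext p
    exact and_congr_right fun _ => e2 p
  rw [e3, e1]
  exact ⟨h1, h3, h4⟩

end Pool.Agent.Results.MP_8cb858_nt.EveryTwoSelmerDimension
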