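import Mathlib
import Pool.Agent.Run7.h69.JB9

/-!
# Rational points and `Ш[2]` of the Jacobians `J_t` of `y² = f(t) ∏ (x - a_i)`, on average over `t`

Let `a_1, …, a_{2g+1}` be distinct integers, `g ≥ 1`, and let `f` be any polynomial with integer
coefficients. For the integers `t` with `f(t) ≠ 0` let `J_t` be the Jacobian of the hyperelliptic
curve `f(t)`-twisted: `y² = f(t) (x - a_1) ⋯ (x - a_{2g+1})`, an abelian variety of dimension `g`
over `ℚ`. It is proved that the groups `J_t(ℚ) / 2 J_t(ℚ)` and `Ш(J_t)[2]` are finite, and that for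
every `k` and every `ε > 0` the average of the `k`-th power of the product of their orders over the
integers `t` of an interval `(x, x + H]` is bounded, uniformly in `x` and `H ≥ |x| ^ ε`. By the
theorem of Mordell and Weil the order of `J_t(ℚ) / 2 J_t(ℚ)` is `2 ^ (rank J_t(ℚ) + 2 g)`.

As the curve has one point at infinity and this point is rational, `J_t(L)` is the Picard group of
the affine coordinate ring `L[x, y] / (y² - f(t) ∏ (x - a_i))` for every extension `L` of `ℚ`. The
classes of `Ш` are the classes of continuous cocycles of the absolute Galois group of `ℚ` in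
`J_t(ℚ^sep)` which are trivial over `ℚ_p` for every prime `p` (nothing is asked at the real place, so
that the group is at least as large as the Tate-Shafarevich group).
-/

namespace Pool.Agent.Results.MP_8cb858_nt.HyperellipticTwistMoments

open Finset Polynomial IsDedekindDomain
open Pool.Agent.Y713.Jac (J Cochain IsCocycle IsCoboundary IsLocallyTrivial)

section
variable {K : Type} [Field K] (F : K[X]) (R : Type) [CommRing R] [IsDedekindDomain R] [Algebra R K]
  [IsFractionRing R K]

/-- the group `J(K) / 2 J(K)` for the Jacobian `J` of `y ^ 2 = F(x)` -/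
abbrev PointsModTwo : Type := J 2 F K ⧸ (powMonoidHom 2 : J 2 F K →* J 2 F K).range

/-- the continuous cocycles `f` of the Galois group of `K` in `J(K^sep)` which are trivial over the
completions of `K` at all the maximal ideals of `R` and for which `2 f` is a coboundary (the groups
`J` are written multiplicatively) -/
abbrev Cocycles : Type := {f : Cochain 2 F // IsCocycle 2 F f ∧ IsLocallyTrivial 2 F R f ∧
  IsCoboundary 2 F (fun σ => f σ ^ 2)}

/-- two cocycles are equivalent if their difference is a coboundary -/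
def cohomologous : Setoid (Cocycles F R) where
  r f g := IsCoboundary 2 F (fun σ => f.1 σ / g.1 σ)
  iseqv := (Run7.h69.JB.setoid2 F R).iseqv

/-- the elements of order two of the group of the locally trivial classes of `H ^ 1 (K, J)` -/
abbrev ShaTwo : Type := Quotient (cohomologous F R)

end

/-- the polynomial `d ∏ (x - a_i)` -/
noncomputable def curve {n : ℕ} (a : Fin n → ℤ) (d : ℤ) : ℚ[X] :=
  C (d : ℚ) * ∏ i, (X - C (a i : ℚ))

/-- All moments of the orders of `J_t(ℚ) / 2 J_t(ℚ)` and `Ш(J_t)[2]` are bounded on average for the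
Jacobians `J_t` of the curves `y ^ 2 = f(t) ∏ (x - a_i)` of any genus `g ≥ 1`, uniformly in short
intervals. -/
theorem result (g : ℕ) (hg : 1 ≤ g) (a : Fin (2 * g + 1) → ℤ) (ha : Function.Injective a)
    (f : ℤ[X]) :
    (∀ t : ℤ, f.eval t ≠ 0 → Finite (PointsModTwo (curve a (f.eval t))) ∧
      Finite (ShaTwo (curve a (f.eval t)) ℤ)) ∧
    ∀ (k : ℕ) (ε : ℝ), 0 < ε → ∃ C : ℝ, ∀ (x : ℤ) (H : ℕ), 1 ≤ H → |(x : ℝ)| ^ ε ≤ H →
      ∑ t ∈ (Ioc x (x + H)).filter (fun t => f.eval t ≠ 0),
        ((Nat.card (PointsModTwo (curve a (f.eval t))) : ℝ) *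
          Nat.card (ShaTwo (curve a (f.eval t)) ℤ)) ^ k ≤ C * H := by
  have hn : Odd (2 * g + 1) := ⟨g, rfl⟩
  constructor
  · intro t ht
    have h1 := Run7.h69.JB.fin (K := 2 * g) ha hn (f.eval t) ht
    have h2 : Finite (PointsModTwo (curve a (f.eval t)) × ShaTwo (curve a (f.eval t)) ℤ) := h1
    have hne : Nonempty (PointsModTwo (curve a (f.eval t)) × ShaTwo (curve a (f.eval t)) ℤ) :=
      Run7.h69.JB.nonempty2 _ _
    obtain ⟨w⟩ := hne
    refine ⟨Finite.of_injective (fun p => (p, w.2)) fun p q h => congrArg Prod.fst h,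
      Finite.of_injective (fun s => (w.1, s)) fun p q h => congrArg Prod.snd h⟩
  · intro k ε hε
    set M : ℕ := ⌈1 / ε⌉₊ with hM
    obtain ⟨C, hC⟩ := Run7.h69.JB.main (K := 2 * g) ha hn (by omega) f k M
    refine ⟨C, fun x H hH hx => ?_⟩
    have hHr : (1 : ℝ) ≤ H := by exact_mod_cast hH
    have h1 : x.natAbs ≤ H ^ M := by
      have h2 : |(x : ℝ)| ≤ (H : ℝ) ^ (M : ℝ) := by
        calc |(x : ℝ)| = (|(x : ℝ)| ^ ε) ^ (1 / ε) := by
              rw [← Real.rpow_mul (abs_nonneg _), mul_one_div_cancel hε.ne', Real.rpow_one]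
          _ ≤ (H : ℝ) ^ (1 / ε) := Real.rpow_le_rpow (by positivity) hx (by positivity)
          _ ≤ (H : ℝ) ^ (M : ℝ) := Real.rpow_le_rpow_of_exponent_le hHr (Nat.le_ceil _)
      rw [Real.rpow_natCast] at h2
      have h3 : ((x.natAbs : ℕ) : ℝ) = |(x : ℝ)| := by
        rw [Nat.cast_natAbs, Int.cast_abs]
      have h4 : ((x.natAbs : ℕ) : ℝ) ≤ ((H ^ M : ℕ) : ℝ) := by
        rw [h3]
        push_cast
        exact h2
      exact_mod_cast h4
    refine le_trans (le_of_eq ?_) (hC x H hH h1)
    refine sum_congr rfl fun t _ => ?_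
    congr 1
    have h5 : Run7.h69.JB.nW a (f.eval t) = Nat.card (PointsModTwo (curve a (f.eval t))) *
        Nat.card (ShaTwo (curve a (f.eval t)) ℤ) := Nat.card_prod _ _
    rw [h5]
    push_cast
    rfl

end Pool.Agent.Results.MP_8cb858_nt.HyperellipticTwistMoments
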