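import Pool.Agent.Run7.h245.DI.As6

/-!
# The Poonen-Rains distribution of the 2-Selmer group in congruence families of all elliptic curves over `ℚ`

Elliptic curves over `ℚ` in the order of the problem: all pairs `(a, b)` of integers with `4 a³ + 27 b² ≠ 0`, curve
`y² = x³ + a x + b`, height `max (|a|³, |b|²)`. Let `C_{2,d} = ∏_{j ≥ 0} (1 + 2 ^ (-j))⁻¹ ∏_{i = 1}^d 2 / (2 ^ i - 1)` be the numbers of Poonen
and Rains.

Theorem. For every `δ > 0` there is a nonempty congruence family `𝔉 ⊆ ℤ × ℤ` (a union of residue classes modulo some `m ≥ 1`)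
such that for all large `X` the distribution of the dimension of the 2-Selmer group among the curves of the family of height
at most `X` differs from the distribution of Poonen and Rains by at most `δ` in total variation: for EVERY set `E` of natural
numbers the proportion of the curves with `dim Sel_2 ∈ E` is within `δ` of `∑_{d ∈ E} C_{2,d}`.

In particular (`E = {d}`) the proportion of the curves with `dim Sel_2 = d` is within `δ` of `C_{2,d}`, for every `d` at the same time, the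
proportion of odd dimensions is within `δ` of `1/2`, and the proportion of the curves of rank at least `s` is at most
`∑_{d ≥ s} C_{2,d} + δ`.

Known before: the distribution in the family of all quadratic twists of ONE curve (Heath-Brown, Swinnerton-Dyer, Kane,
Klagsbrun-Mazur-Rubin for another order, Smith), and averages of the order of the 2-Selmer group in all large congruence
families (Bhargava-Shankar: the average is 3), which do not determine the distribution. The family `𝔉` depends on `δ` and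
cannot be prescribed, and the theorem is about `F = ℚ`, `p = 2` only.

The proof. By project PF/SR/MO there are levels `T_0, T_1, ...` of primes `q = 1` modulo `8`, with `f = x³ + a x + b` equal to `x`
times an irreducible polynomial modulo `q`, such that in one residue class the classes of `ℚ(θ)` (`f(θ) = 0`) with square norm,
unramified outside the levels and locally in the image of the curve at `2` and the real place, form a group `Λ`, isotropic for the
sum of the hyperbolic forms at the primes of all levels (reciprocity), and the 2-Selmer group of the twist of `f` by the product of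
the elements of a set `J` of primes of the levels is the subgroup given by conditions at the elements of `J`. New here:

* over `ℚ`, with `f = x³ + x + 1` modulo `16`, `Λ` has `2 ^ |S|` elements (`S` the union of the levels), so it is MAXIMAL isotropic (units
  outside `S` modulo squares, the real place and the prime 2 by hand), hence the dimension changes by exactly one when a prime is
  added to `J`;
* the pseudorandomness is two-sided: for all but a small proportion of the curves of the class, a class of `Λ` which is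
  ramified only at earlier levels is trivial at at most `(1/2 + ε)` and nontrivial at at most `(1/2 + ε)` of the primes of a
  level (geometry of numbers for pairs of symmetric `3 × 3` matrices, now also with those which are NOT distinguished at `q`);
* so the dimension for `J = {q_1, ..., q_k}`, `q_j ∈ T_j`, is a Markov chain `d → d + 1` with probability nearly `2 ^ (-d)`, `d → d - 1`
  otherwise, which converges in each parity to the distribution of Poonen and Rains;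
* both parities are balanced by means of one fixed prime `q_0 ∈ T_0`: the primes of the level `T_k` are in a short interval
  near `y`, those of `T_{k+1}` near `q_0 y` (prime number theorem in residue classes), and one uses
  the twists by `q_0 q_1 ... q_k` and by `q_1 ... q_{k-1} q_{k+1}`, which have nearly the same height.

Files: `Pool/Agent/Run7/h245/DI/{Iface,Lv,Cn2,Pd,Lz,As3,As4,Hh,As5,All,As6}.lean` (helper245), `Run7/h834/DI` (CQN, PBN), `Run7/h915/DI`
(ORBN, BADN, LEVBN), `Run7/h824/DI` (CHIN, LBN), `Run7/h594/DI` (TVN, TW2, SZE), `Run7/h224/DI` (UNX, TWF), `Run7/h610/DI` (RE2),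
`Run7/h437/DI` (SQE, WIN2), `Run7/h942/DI` (GF2), `Run7/h799/DI` (QS, MCC), `Run7/h847/DI` (STEP), `Run7/h83/DI` (MCD), built on
projects SR and MO (`Run7/h216/MO`, `Run7/h688/MO`) and on the starting files of project PF (helper783 and others) and
`Cov/PNT.lean`. `Pt`, `Sep`, `act`, `rs`, `IsCoc`, `LocTriv`, `Comp` are the group of points, separable closures, the action of the Galois
group, continuous cocycles and their restriction to completions of `Pool.Agent.TH115.GD`.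
-/

set_option autoImplicit false
set_option linter.all false

namespace Pool.Agent.Results.MP_8cb858_nt.PoonenRainsCongruenceFamily

open Filter NumberField IsDedekindDomain Pool.Agent.TH115.GD
open scoped Classical

/-- The number `C_{2,d}` of Poonen and Rains. -/
noncomputable def prob (d : ℕ) : ℝ :=
  (∏' j : ℕ, (1 + (2 : ℝ)⁻¹ ^ j))⁻¹ * ∏ i ∈ Finset.Icc 1 d, 2 / ((2 : ℝ) ^ i - 1)

/-- The height `max (|a| ^ 3, |b| ^ 2)`. -/
noncomputable def height (p : ℤ × ℤ) : ℝ := max (|(p.1 : ℝ)| ^ 3) (|(p.2 : ℝ)| ^ 2)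

/-- The pairs `(a, b)` in `𝔉` with `4 a ^ 3 + 27 b ^ 2 ≠ 0` and height at most `X`. -/
def Curves (𝔉 : Set (ℤ × ℤ)) (X : ℝ) : Set (ℤ × ℤ) :=
  {p | p ∈ 𝔉 ∧ 4 * p.1 ^ 3 + 27 * p.2 ^ 2 ≠ 0 ∧ height p ≤ X}

/-- `𝔉` is a union of residue classes modulo `m`. -/
def Periodic (m : ℕ) (𝔉 : Set (ℤ × ℤ)) : Prop :=
  ∀ p ∈ 𝔉, ∀ p' : ℤ × ℤ, (m : ℤ) ∣ p'.1 - p.1 → (m : ℤ) ∣ p'.2 - p.2 → p' ∈ 𝔉

/-- The curve `y ^ 2 = x ^ 3 + a x + b` over `ℚ`. -/
def curve (p : ℤ × ℤ) : WeierstrassCurve ℚ := ⟨0, 0, 0, (p.1 : ℚ), (p.2 : ℚ)⟩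

section selmer

variable (K : Type) [Field K] [NumberField K] (W : WeierstrassCurve K)

/-- The cocycle `f` of `Gal(Sep K / K)` is a coboundary over all completions of `K`: at every maximal ideal
of the ring of integers and over `ℝ` for every real embedding (over `ℂ` there is no condition). -/
structure Locally (f : (Sep K ≃ₐ[K] Sep K) → Pt W (Sep K)) : Prop where
  finite : ∀ v : HeightOneSpectrum (𝓞 K), LocTriv W (Comp (𝓞 K) K v) (Sep (Comp (𝓞 K) K v)) f
  real : ∀ ρ : K →+* ℝ, letI := ρ.toAlgebra; LocTriv W ℝ (Sep ℝ) f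

/-- A continuous cocycle of `Gal(Sep K / K)` with values in the points of order two, which is a coboundary (with
values in all points) over all completions. -/
structure IsSelmer (f : (Sep K ≃ₐ[K] Sep K) → Pt W (Sep K)) : Prop where
  coc : IsCoc W f
  two : ∀ σ, (2 : ℕ) • f σ = 0
  loc : Locally K W f

/-- Cocycles are equivalent if they differ by the coboundary of a point of order two. -/
def selmerSetoid : Setoid {f : (Sep K ≃ₐ[K] Sep K) → Pt W (Sep K) // IsSelmer K W f} where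
  r f f' := ∃ T : Pt W (Sep K), (2 : ℕ) • T = 0 ∧ ∀ σ, f.1 σ - f'.1 σ = act W (rs K σ) T - T
  iseqv := by
    refine ⟨fun f => ⟨0, smul_zero _, fun σ => by rw [map_zero]; abel⟩, ?_, ?_⟩
    · rintro f f' ⟨T, hT, h⟩
      refine ⟨-T, by rw [smul_neg, hT, neg_zero], fun σ => ?_⟩
      have e : f'.1 σ - f.1 σ = -(f.1 σ - f'.1 σ) := by abel
      rw [map_neg, e, h σ]
      abel
    · rintro f f' f'' ⟨T, hT, h⟩ ⟨T', hT', h'⟩
      refine ⟨T + T', by rw [smul_add, hT, hT', add_zero], fun σ => ?_⟩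
      have e : f.1 σ - f''.1 σ = (f.1 σ - f'.1 σ) + (f'.1 σ - f''.1 σ) := by abel
      rw [e, h, h', map_add]
      abel

/-- The 2-Selmer group of `W`, as a set. -/
def SelmerTwo : Type := Quotient (selmerSetoid K W)

end selmer

theorem card_eq (K : Type) [Field K] [NumberField K] (W : WeierstrassCurve K) :
    Nat.card (SelmerTwo K W) = Nat.card (Pool.Agent.Run7.h245.SR.Sel2 K W) := by
  have e : ∀ f : (Sep K ≃ₐ[K] Sep K) → Pt W (Sep K), IsSelmer K W f ↔
      Pool.Agent.Run7.h245.SR.SelCoc K W f := fun f =>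
    ⟨fun h => ⟨h.coc, h.two, h.loc.finite, h.loc.real⟩, fun h => ⟨h.coc, h.two, ⟨h.finite, h.real⟩⟩⟩
  refine Nat.card_congr (Quotient.congr (Equiv.subtypeEquivRight e) ?_)
  intro f f'
  exact Iff.rfl

/-- From the integers to the ring of integers of `ℚ`. -/
noncomputable def toO (p : ℤ × ℤ) : 𝓞 ℚ × 𝓞 ℚ := ((p.1 : 𝓞 ℚ), (p.2 : 𝓞 ℚ))

theorem toO_inj : Function.Injective toO := by
  intro p p' h
  have h1 : (p.1 : 𝓞 ℚ) = (p'.1 : 𝓞 ℚ) := congrArg Prod.fst h
  have h2 : (p.2 : 𝓞 ℚ) = (p'.2 : 𝓞 ℚ) := congrArg Prod.snd h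
  exact Prod.ext (Int.cast_injective h1) (Int.cast_injective h2)

theorem toO_surj : Function.Surjective toO := by
  have key : ∀ x : 𝓞 ℚ, ∃ n : ℤ, (n : 𝓞 ℚ) = x := by
    intro x
    refine ⟨Rat.ringOfIntegersEquiv x, ?_⟩
    apply Rat.ringOfIntegersEquiv.injective
    rw [map_intCast]
    simp
  rintro ⟨x, y⟩
  obtain ⟨a, rfl⟩ := key x
  obtain ⟨b, rfl⟩ := key y
  exact ⟨(a, b), rfl⟩

theorem ncard_pre (S : Set (𝓞 ℚ × 𝓞 ℚ)) : (toO ⁻¹' S).ncard = S.ncard := by
  conv_rhs => rw [← Set.image_preimage_eq S toO_surj]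
  rw [Set.ncard_image_of_injective _ toO_inj]

theorem coe_int (n : ℤ) : (((n : 𝓞 ℚ) : 𝓞 ℚ) : ℚ) = (n : ℚ) := by
  show algebraMap (𝓞 ℚ) ℚ (n : 𝓞 ℚ) = _
  rw [map_intCast]

theorem height_le (X : ℝ) (p : ℤ × ℤ) :
    height p ≤ X ↔ toO p ∈ Pool.Agent.Run7.h245.DI.Hh (F := ℚ) X := by
  have key : ∀ (σ : ℚ →+* ℂ) (n : ℤ), ‖σ (((n : 𝓞 ℚ) : 𝓞 ℚ) : ℚ)‖ = |(n : ℝ)| := by
    intro σ n
    rw [coe_int, map_intCast, Complex.norm_intCast]
  unfold height
  rw [max_le_iff]
  constructor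
  · rintro ⟨h1, h2⟩ σ
    refine ⟨?_, ?_⟩
    · show ‖σ (((p.1 : 𝓞 ℚ) : 𝓞 ℚ) : ℚ)‖ ^ 3 ≤ X
      rw [key]
      exact h1
    · show ‖σ (((p.2 : 𝓞 ℚ) : 𝓞 ℚ) : ℚ)‖ ^ 2 ≤ X
      rw [key]
      exact h2
  · intro h
    obtain ⟨h1, h2⟩ := h (algebraMap ℚ ℂ)
    have h1' : ‖(algebraMap ℚ ℂ) (((p.1 : 𝓞 ℚ) : 𝓞 ℚ) : ℚ)‖ ^ 3 ≤ X := h1
    have h2' : ‖(algebraMap ℚ ℂ) (((p.2 : 𝓞 ℚ) : 𝓞 ℚ) : ℚ)‖ ^ 2 ≤ X := h2
    rw [key] at h1' h2'
    exact ⟨h1', h2'⟩

/-- The pairs with nonzero discriminant. -/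
def NonSing : Set (𝓞 ℚ × 𝓞 ℚ) := {p | 4 * p.1 ^ 3 + 27 * p.2 ^ 2 ≠ 0}

theorem curves_eq (𝔉 : Set (𝓞 ℚ × 𝓞 ℚ)) (X : ℝ) :
    Curves (toO ⁻¹' 𝔉) X =
      toO ⁻¹' (Pool.Agent.Run7.h245.DI.Uq Pool.Agent.Run7.h245.DI.Hh NonSing 𝔉 X) := by
  have hd : ∀ p : ℤ × ℤ, 4 * p.1 ^ 3 + 27 * p.2 ^ 2 ≠ 0 ↔ toO p ∈ NonSing := by
    intro p
    have e : 4 * (p.1 : 𝓞 ℚ) ^ 3 + 27 * (p.2 : 𝓞 ℚ) ^ 2 = ((4 * p.1 ^ 3 + 27 * p.2 ^ 2 : ℤ) : 𝓞 ℚ) := by
      push_cast
      rfl
    show _ ↔ 4 * (p.1 : 𝓞 ℚ) ^ 3 + 27 * (p.2 : 𝓞 ℚ) ^ 2 ≠ 0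
    rw [e]
    exact (not_congr Int.cast_eq_zero).symm
  ext p
  constructor
  · rintro ⟨h1, h2, h3⟩
    exact ⟨(hd p).1 h2, (height_le X p).1 h3, h1⟩
  · rintro ⟨h1, h2, h3⟩
    exact ⟨h3, (hd p).2 h1, (height_le X p).2 h2⟩

theorem sel_eq (p : ℤ × ℤ) :
    Nat.card (SelmerTwo ℚ (curve p)) = Pool.Agent.Run7.h245.MO.sl (toO p) := by
  rw [card_eq]
  unfold Pool.Agent.Run7.h245.MO.sl
  have e : curve p = Pool.Agent.N874.PP.sW ((toO p).1 : ℚ) ((toO p).2 : ℚ) := by
    show (⟨0, 0, 0, (p.1 : ℚ), (p.2 : ℚ)⟩ : WeierstrassCurve ℚ) =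
      ⟨0, 0, 0, (((p.1 : 𝓞 ℚ) : 𝓞 ℚ) : ℚ), (((p.2 : 𝓞 ℚ) : 𝓞 ℚ) : ℚ)⟩
    rw [coe_int, coe_int]
  rw [e]

/-- For every `δ > 0` there are `m > 0` and a union `𝔉` of residue classes modulo `m` such that for all large `X` the set of the
pairs `(a, b)` in `𝔉` with `4 a ^ 3 + 27 b ^ 2 ≠ 0` and `max (|a| ^ 3, |b| ^ 2) ≤ X` is finite and not empty, and for every set
`E` of natural numbers the proportion of its elements for which the order of the 2-Selmer group of `y ^ 2 = x ^ 3 + a x + b` is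
`2 ^ d` with `d ∈ E` differs from `∑_{d ∈ E} C_{2,d}` by at most `δ`. -/
theorem result (δ : ℝ) (hδ : 0 < δ) :
    ∃ (m : ℕ) (𝔉 : Set (ℤ × ℤ)), 0 < m ∧ Periodic m 𝔉 ∧ ∀ᶠ X : ℝ in atTop,
      (Curves 𝔉 X).Finite ∧ 0 < (Curves 𝔉 X).ncard ∧ ∀ E : Set ℕ,
        |({p ∈ Curves 𝔉 X | ∃ d ∈ E, Nat.card (SelmerTwo ℚ (curve p)) = 2 ^ d}.ncard : ℝ) /
          ((Curves 𝔉 X).ncard : ℝ) - ∑' d : E, prob d| ≤ δ := by
  obtain ⟨m, 𝔉, hm, hper, h⟩ := Pool.Agent.Run7.h245.DI.distTV Pool.Agent.Run7.h245.DI.hd_hh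
    (Mq := NonSing) (fun p hp => hp.1) δ hδ
  refine ⟨m, toO ⁻¹' 𝔉, hm, ?_, ?_⟩
  · intro p hp p' h1 h2
    refine hper (toO p) hp (toO p') ?_ ?_
    · obtain ⟨c, hc⟩ := h1
      refine ⟨(c : 𝓞 ℚ), ?_⟩
      show (p'.1 : 𝓞 ℚ) - (p.1 : 𝓞 ℚ) = _
      rw [← Int.cast_sub, hc]
      push_cast
      rfl
    · obtain ⟨c, hc⟩ := h2
      refine ⟨(c : 𝓞 ℚ), ?_⟩
      show (p'.2 : 𝓞 ℚ) - (p.2 : 𝓞 ℚ) = _
      rw [← Int.cast_sub, hc]
      push_cast
      rfl
  · filter_upwards [h] with X hX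
    obtain ⟨h1, h2, h3⟩ := hX
    rw [curves_eq]
    refine ⟨h1.preimage toO_inj.injOn, by rw [ncard_pre]; exact h2, fun E => ?_⟩
    rw [ncard_pre]
    have e : {p ∈ toO ⁻¹' (Pool.Agent.Run7.h245.DI.Uq Pool.Agent.Run7.h245.DI.Hh NonSing 𝔉 X) |
        ∃ d ∈ E, Nat.card (SelmerTwo ℚ (curve p)) = 2 ^ d} =
        toO ⁻¹' {p ∈ Pool.Agent.Run7.h245.DI.Uq Pool.Agent.Run7.h245.DI.Hh NonSing 𝔉 X |
          ∃ d ∈ E, Pool.Agent.Run7.h245.MO.sl p = 2 ^ d} := by
      ext p
      constructor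
      · rintro ⟨g1, d, g2, g3⟩
        exact ⟨g1, d, g2, by rw [← sel_eq]; exact g3⟩
      · rintro ⟨g1, d, g2, g3⟩
        exact ⟨g1, d, g2, by rw [sel_eq]; exact g3⟩
    rw [e, ncard_pre]
    exact h3 E

end Pool.Agent.Results.MP_8cb858_nt.PoonenRainsCongruenceFamily
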